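import Mathlib

namespace Pool.Agent.Results.MP_e4b752_al.No

open Function

/-- Rank of a transformation: the size of its image. -/
def rank {n : ℕ} (a : Fin n → Fin n) : ℕ := (Finset.univ.image a).card

/-- Minimum degree of the variant `T_n^a`: the least `m ≥ 1` such that `T_n` with the product
`x ⋆ y = x a y` embeds in `T_m`. -/
noncomputable def mu {n : ℕ} (a : Fin n → Fin n) : ℕ :=
  sInf {m | 1 ≤ m ∧ ∃ φ : (Fin n → Fin n) → (Fin m → Fin m),
    Injective φ ∧ ∀ x y, φ (x ∘ a ∘ y) = φ x ∘ φ y}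

lemma transport {X Ω : Type} [Fintype Ω] [Nonempty Ω] {n : ℕ} (e : X ≃ Fin n) (a : X → X)
    (φ : (X → X) → (Ω → Ω)) (h1 : Injective φ) (h2 : ∀ x y, φ (x ∘ a ∘ y) = φ x ∘ φ y) :
    mu (e ∘ a ∘ e.symm) ≤ Fintype.card Ω := by
  let f := Fintype.equivFin Ω
  refine Nat.sInf_le ⟨Fintype.card_pos, fun x => f ∘ φ (e.symm ∘ x ∘ e) ∘ f.symm, ?_, ?_⟩
  · intro x y h
    have : φ (e.symm ∘ x ∘ e) = φ (e.symm ∘ y ∘ e) := by
      ext w
      simpa using congrFun h (f w)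
    ext i
    have := congrFun (h1 this) (e.symm i)
    simp at this
    rw [this]
  · intro x y
    have : e.symm ∘ (x ∘ (e ∘ a ∘ e.symm) ∘ y) ∘ e =
        (e.symm ∘ x ∘ e) ∘ a ∘ (e.symm ∘ y ∘ e) := by
      ext i; simp
    simp only [this, h2]
    ext w; simp

abbrev X (r h : ℕ) : Type := Fin r × (Fin 2 × Fin (h + 1)) × Fin 3

abbrev Ω (r h : ℕ) : Type := X r h ⊕ (Fin r × Fin 2 × Fin (h + 1)) ⊕
  (Fin r × Fin (h + 1) × Fin 3) ⊕ (Fin 2 → Fin r × Fin 3)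

def ρ {r : ℕ} (h : ℕ) (k : Fin r) : X r h := (k, (0, 0), 0)

def φ {r h : ℕ} (x : X r h → X r h) : Ω r h → Ω r h
  | .inl i => .inr (.inl ((x i).1, (x i).2.1))
  | .inr (.inl t) => .inr (.inl ((x (ρ h t.1)).1, (x (ρ h t.1)).2.1))
  | .inr (.inr (.inl g)) => .inr (.inr (.inr fun j =>
      ((x (g.1, (j, g.2.1), g.2.2)).1, (x (g.1, (j, g.2.1), g.2.2)).2.2)))
  | .inr (.inr (.inr t)) => .inr (.inr (.inr fun j =>
      ((x (ρ h (t j).1)).1, (x (ρ h (t j).1)).2.2)))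

lemma φ_inj (r h : ℕ) : Injective (φ (r := r) (h := h)) := by
  intro x y hxy
  funext ⟨k, ⟨j, u⟩, l⟩
  have h1 := congrFun hxy (.inl (k, (j, u), l))
  have h2 := congrFun hxy (.inr (.inr (.inl (k, u, l))))
  simp only [φ, Sum.inr.injEq, Sum.inl.injEq, Prod.mk.injEq] at h1 h2
  have h3 := congrArg Prod.snd (congrFun h2 j)
  exact Prod.ext h1.1 (Prod.ext h1.2 h3)

lemma φ_mul (r h : ℕ) (x y : X r h → X r h) :
    φ (x ∘ (fun i => ρ h i.1) ∘ y) = φ x ∘ φ y := by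
  funext w
  rcases w with i | t | g | t <;> rfl

theorem result (r : ℕ) (hr : 1 ≤ r) :
    ∃ (n : ℕ) (a : Fin n → Fin n), rank a = r ∧ mu a < 2 * n - r := by
  let e := Fintype.equivFin (X r (9 * r + 1))
  have : Nonempty (Ω r (9 * r + 1)) := ⟨.inl (ρ _ ⟨0, hr⟩)⟩
  refine ⟨_, e ∘ (fun i => ρ _ i.1) ∘ e.symm, ?_,
    (transport e _ φ (φ_inj r _) (φ_mul r _)).trans_lt ?_⟩
  · have : Finset.univ.image (e ∘ (fun i => ρ (9 * r + 1) i.1) ∘ e.symm) =
        Finset.univ.image (e ∘ ρ (9 * r + 1)) := by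
      ext i
      simp only [Finset.mem_image, Finset.mem_univ, true_and, comp]
      exact ⟨fun ⟨j, hj⟩ => ⟨_, hj⟩, fun ⟨k, hk⟩ => ⟨e (ρ _ k), by simpa [ρ] using hk⟩⟩
    rw [rank, this, Finset.card_image_of_injective _
      (e.injective.comp fun k k' h => congrArg Prod.fst h)]
    simp
  · simp only [Fintype.card_sum, Fintype.card_prod, Fintype.card_fin, Fintype.card_fun]
    apply Nat.lt_sub_of_add_lt
    nlinarith

end Pool.Agent.Results.MP_e4b752_al.No
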